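import Pool.Agent.Helper57.BI.Defs

/-! BI-17: bounded coboundaries approximate every integrable function of mean zero, with an upper
bound (helper21). -/

open MeasureTheory Filter Topology

namespace Pool.Agent.Helper57.BI

/-- `MM T θ n x = max_{0 ≤ k ≤ n} (-S_k θ) (x)`, recursively. -/
noncomputable def MM {X : Type} (T : X → X) (θ : X → ℝ) : ℕ → X → ℝ
  | 0 => fun _ => 0
  | n + 1 => fun x => max 0 (MM T θ n (T x) - θ x)

theorem MM_succ {X : Type} (T : X → X) (θ : X → ℝ) (n : ℕ) (x : X) :
    MM T θ (n + 1) x = max 0 (MM T θ n (T x) - θ x) := rfl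

theorem MM_nonneg {X : Type} (T : X → X) (θ : X → ℝ) (n : ℕ) (x : X) : 0 ≤ MM T θ n x := by
  cases n with
  | zero => exact le_refl _
  | succ n => rw [MM_succ]; exact le_max_left _ _

theorem MM_le_succ {X : Type} (T : X → X) (θ : X → ℝ) (n : ℕ) :
    ∀ x : X, MM T θ n x ≤ MM T θ (n + 1) x := by
  induction n with
  | zero => intro x; exact MM_nonneg T θ 1 x
  | succ n ih =>
    intro x
    rw [MM_succ T θ n, MM_succ T θ (n + 1)]
    exact max_le_max le_rfl (sub_le_sub_right (ih _) _)

theorem MM_mono {X : Type} (T : X → X) (θ : X → ℝ) (x : X) : Monotone fun n => MM T θ n x :=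
  monotone_nat_of_le_succ fun n => MM_le_succ T θ n x

theorem MM_measurable {X : Type} [MeasurableSpace X] {T : X → X} (hT : Measurable T) {θ : X → ℝ}
    (hθ : Measurable θ) (n : ℕ) : Measurable (MM T θ n) := by
  induction n with
  | zero => exact measurable_const
  | succ n ih => exact measurable_const.max ((ih.comp hT).sub hθ)

theorem MM_integrable {X : Type} [MeasurableSpace X] {μ : Measure X} [IsProbabilityMeasure μ]
    {T : X → X} (hT : MeasurePreserving T μ μ) {θ : X → ℝ} (hθ : Integrable θ μ) (n : ℕ) :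
    Integrable (MM T θ n) μ := by
  induction n with
  | zero => exact integrable_const _
  | succ n ih =>
    have h1 : Integrable (fun x => MM T θ n (T x)) μ := hT.integrable_comp_of_integrable ih
    exact (integrable_const (0 : ℝ)).sup (h1.sub hθ)

/-- The set where the maximal function is infinite. -/
def EE {X : Type} (T : X → X) (θ : X → ℝ) : Set X := {x | ∀ K : ℕ, ∃ n, (K : ℝ) < MM T θ n x}

theorem EE_inv {X : Type} (T : X → X) (θ : X → ℝ) : T ⁻¹' EE T θ = EE T θ := by
  ext x
  constructor
  · intro h K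
    obtain ⟨K', hK'⟩ := exists_nat_ge ((K : ℝ) + |θ x|)
    obtain ⟨n, hn⟩ := h K'
    refine ⟨n + 1, ?_⟩
    rw [MM_succ]
    have := le_abs_self (θ x)
    exact lt_max_of_lt_right (by linarith)
  · intro h K
    obtain ⟨K', hK'⟩ := exists_nat_ge ((K : ℝ) + |θ x|)
    obtain ⟨n, hn⟩ := h K'
    refine ⟨n, ?_⟩
    have h1 := MM_le_succ T θ n x
    rw [MM_succ] at h1
    have h2 := neg_abs_le (θ x)
    have h3 : (0 : ℝ) ≤ |θ x| := abs_nonneg _
    have h4 : (0 : ℝ) ≤ (K : ℝ) := Nat.cast_nonneg _
    rcases le_max_iff.1 h1 with h5 | h5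
    · exfalso
      linarith
    · linarith

theorem EE_measurable {X : Type} [MeasurableSpace X] {T : X → X} (hT : Measurable T) {θ : X → ℝ}
    (hθ : Measurable θ) : MeasurableSet (EE T θ) := by
  have : EE T θ = ⋂ K : ℕ, ⋃ n : ℕ, {x | (K : ℝ) < MM T θ n x} := by
    ext x; simp [EE]
  rw [this]
  exact MeasurableSet.iInter fun K => MeasurableSet.iUnion fun n =>
    measurableSet_lt measurable_const (MM_measurable hT hθ n)

/-- The maximal function is finite almost everywhere when the mean is positive. -/
theorem EE_null {X : Type} [MeasurableSpace X] (μ : Measure X) [IsProbabilityMeasure μ]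
    (T : X → X) (hT : Ergodic T μ) (θ : X → ℝ) (hθm : Measurable θ) (hθ : Integrable θ μ)
    (hθ0 : 0 < ∫ x, θ x ∂μ) : μ (EE T θ) = 0 := by
  have hTm := hT.toMeasurePreserving.measurable
  have hTp := hT.toMeasurePreserving
  have hE := EE_measurable hTm hθm
  rcases hT.toPreErgodic.measure_self_or_compl_eq_zero hE (EE_inv T θ) with h | h
  · exact h
  exfalso
  -- almost every point is in `E`
  have hae : ∀ᵐ x ∂μ, x ∈ EE T θ := by
    rw [ae_iff]
    exact h
  set F : ℕ → X → ℝ := fun n x => MM T θ n (T x) - MM T θ (n + 1) x with hF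
  have hFe : ∀ n x, F n x = min (MM T θ n (T x)) (θ x) := by
    intro n x
    simp only [hF]
    rw [MM_succ]
    rcases le_total 0 (MM T θ n (T x) - θ x) with h1 | h1
    · rw [max_eq_right h1, min_eq_right (by linarith)]; ring
    · rw [max_eq_left h1, min_eq_left (by linarith)]; ring
  have hlim : Tendsto (fun n => ∫ x, F n x ∂μ) atTop (𝓝 (∫ x, θ x ∂μ)) := by
    apply tendsto_integral_of_dominated_convergence (fun x => |θ x|)
    · intro n
      exact (((MM_measurable hTm hθm n).comp hTm).sub
        (MM_measurable hTm hθm (n + 1))).aestronglyMeasurable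
    · exact hθ.abs
    · intro n
      filter_upwards with x
      rw [hFe, Real.norm_eq_abs]
      have h0 := MM_nonneg T θ n (T x)
      rcases le_total (MM T θ n (T x)) (θ x) with h1 | h1
      · rw [min_eq_left h1, abs_of_nonneg h0]
        exact h1.trans (le_abs_self _)
      · rw [min_eq_right h1]
    · filter_upwards [hae] with x hx
      have hx' : T x ∈ EE T θ := by
        have := EE_inv T θ
        rw [← this] at hx
        exact hx
      obtain ⟨K, hK⟩ := exists_nat_ge (θ x)
      obtain ⟨n0, hn0⟩ := hx' K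
      apply tendsto_const_nhds.congr'
      filter_upwards [eventually_ge_atTop n0] with n hn
      rw [hFe, min_eq_right]
      have := MM_mono T θ (T x) hn
      simp only at this
      linarith
  have hneg : ∀ n, ∫ x, F n x ∂μ ≤ 0 := by
    intro n
    have h1 : Integrable (fun x => MM T θ n (T x)) μ :=
      hTp.integrable_comp_of_integrable (MM_integrable hTp hθ n)
    have h2 := MM_integrable hTp hθ (n + 1)
    simp only [hF]
    rw [integral_sub h1 h2]
    have h3 : ∫ x, MM T θ n (T x) ∂μ = ∫ x, MM T θ n x ∂μ := by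
      have h4 := hTp.map_eq
      conv_rhs => rw [← h4]
      rw [integral_map hTm.aemeasurable]
      rw [h4]
      exact (MM_integrable hTp hθ n).aestronglyMeasurable
    rw [h3]
    have h5 := integral_mono (MM_integrable hTp hθ n) h2 (fun x => MM_le_succ T θ n x)
    linarith
  have := le_of_tendsto' hlim hneg
  linarith

/-- BI-17 -/
theorem coboundary {X : Type} [MeasurableSpace X] (μ : Measure X) [IsProbabilityMeasure μ]
    (T : X → X) (hT : Ergodic T μ) (φ : X → ℝ) (hφm : Measurable φ) (hφ : Integrable φ μ)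
    (hφ0 : ∫ x, φ x ∂μ = 0) (hφ1 : ∀ x, φ x ≤ 1) (τ : ℝ) (hτ : 0 < τ) :
    ∃ W : X → ℝ, Measurable W ∧ (∃ K, ∀ x, |W x| ≤ K) ∧ (∀ᵐ x ∂μ, W (T x) - W x ≤ 2) ∧
      ∫ x, |φ x - (W (T x) - W x)| ∂μ ≤ τ := by
  have hTm := hT.toMeasurePreserving.measurable
  have hTp := hT.toMeasurePreserving
  set t : ℝ := min τ 1 with ht
  have ht0 : 0 < t := lt_min hτ one_pos
  have ht1 : t ≤ 1 := min_le_right _ _
  have htτ : t ≤ τ := min_le_left _ _
  set θ : X → ℝ := fun x => φ x + t / 4 with hθd
  have hθm : Measurable θ := hφm.add_const _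
  have hθ : Integrable θ μ := hφ.add (integrable_const _)
  have hθi : ∫ x, θ x ∂μ = t / 4 := by
    simp only [hθd]
    rw [integral_add hφ (integrable_const _), hφ0]
    simp
  have hθ1 : ∀ x, θ x ≤ 2 := fun x => by
    have := hφ1 x
    simp only [hθd]
    linarith
  have hE0 := EE_null μ T hT θ hθm hθ (by rw [hθi]; positivity)
  -- the bad sets
  set B : ℕ → Set X := fun R => {x | ∃ n, (R : ℝ) < MM T θ n x} with hB
  have hBm : ∀ R, MeasurableSet (B R) := by
    intro R
    have : B R = ⋃ n : ℕ, {x | (R : ℝ) < MM T θ n x} := by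
      ext x; simp [hB]
    rw [this]
    exact MeasurableSet.iUnion fun n =>
      measurableSet_lt measurable_const (MM_measurable hTm hθm n)
  have hBa : Antitone B := by
    intro R R' h x hx
    obtain ⟨n, hn⟩ := hx
    exact ⟨n, lt_of_le_of_lt (by exact_mod_cast h) hn⟩
  have hBi : ⋂ R, B R = EE T θ := by
    ext x; simp [hB, EE]
  have hlim : Tendsto (fun R => ∫ x in B R, |θ x| ∂μ) atTop (𝓝 0) := by
    have h1 := tendsto_setIntegral_of_antitone (μ := μ) (f := fun x => |θ x|) hBm hBa
      ⟨0, hθ.abs.integrableOn⟩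
    rw [hBi] at h1
    rwa [setIntegral_measure_zero _ hE0] at h1
  obtain ⟨R, hR⟩ := (hlim.eventually (gt_mem_nhds (show (0 : ℝ) < t / 8 by positivity))).exists
  have hR0 : (0 : ℝ) ≤ R := Nat.cast_nonneg _
  set W : X → ℝ := fun x => ⨆ n, min (MM T θ n x) R with hW
  have hbdd : ∀ x, BddAbove (Set.range fun n => min (MM T θ n x) (R : ℝ)) := fun x =>
    ⟨R, by rintro _ ⟨n, rfl⟩; exact min_le_right _ _⟩
  have hW0 : ∀ x, 0 ≤ W x := fun x =>
    le_ciSup_of_le (hbdd x) 0 (le_min (MM_nonneg T θ 0 x) hR0)
  have hWR : ∀ x, W x ≤ R := fun x => ciSup_le fun n => min_le_right _ _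
  have hWm : Measurable W := Measurable.iSup fun n =>
    (MM_measurable hTm hθm n).min measurable_const
  -- key inequalities
  have hgood : ∀ x, x ∉ B R → W (T x) - W x ≤ θ x := by
    intro x hx
    have hx' : ∀ n, MM T θ n x ≤ R := fun n => by
      by_contra hc
      exact hx ⟨n, not_le.1 hc⟩
    have : W (T x) ≤ W x + θ x := by
      apply ciSup_le
      intro n
      have h1 : MM T θ (n + 1) x ≤ W x := by
        refine le_trans ?_ (le_ciSup (hbdd x) (n + 1))
        exact le_min le_rfl (hx' _)
      have h2 : MM T θ n (T x) - θ x ≤ MM T θ (n + 1) x := by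
        rw [MM_succ]; exact le_max_right _ _
      have h3 : min (MM T θ n (T x)) (R : ℝ) ≤ MM T θ n (T x) := min_le_left _ _
      linarith
    linarith
  have hbad : ∀ x, x ∈ B R → W (T x) - W x ≤ 0 := by
    intro x ⟨n, hn⟩
    have h1 : (R : ℝ) ≤ W x := by
      refine le_trans ?_ (le_ciSup (hbdd x) n)
      exact le_min hn.le le_rfl
    have h2 := hWR (T x)
    linarith
  have hWi : Integrable W μ := by
    refine Integrable.mono' (integrable_const (R : ℝ)) hWm.aestronglyMeasurable ?_
    filter_upwards with x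
    rw [Real.norm_eq_abs, abs_of_nonneg (hW0 x)]
    exact hWR x
  have hWTi : Integrable (fun x => W (T x)) μ := hTp.integrable_comp_of_integrable hWi
  have hψi : Integrable (fun x => W (T x) - W x) μ := hWTi.sub hWi
  have hψ0 : ∫ x, (W (T x) - W x) ∂μ = 0 := by
    rw [integral_sub hWTi hWi]
    have h3 : ∫ x, W (T x) ∂μ = ∫ x, W x ∂μ := by
      have h4 := hTp.map_eq
      conv_rhs => rw [← h4]
      rw [integral_map hTm.aemeasurable]
      rw [h4]
      exact hWi.aestronglyMeasurable
    rw [h3, sub_self]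
  refine ⟨W, hWm, ⟨R, fun x => by rw [abs_of_nonneg (hW0 x)]; exact hWR x⟩, ?_, ?_⟩
  · filter_upwards with x
    by_cases hx : x ∈ B R
    · exact (hbad x hx).trans (by norm_num)
    · exact (hgood x hx).trans (hθ1 x)
  · have hpt : ∀ x, |φ x - (W (T x) - W x)| ≤
        (θ x - (W (T x) - W x)) + 2 * (B R).indicator (fun x => |θ x|) x + t / 4 := by
      intro x
      have h1 : φ x - (W (T x) - W x) = (θ x - (W (T x) - W x)) - t / 4 := by
        simp only [hθd]; ring
      rw [h1]
      have h2 : |θ x - (W (T x) - W x)| ≤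
          (θ x - (W (T x) - W x)) + 2 * (B R).indicator (fun x => |θ x|) x := by
        by_cases hx : x ∈ B R
        · rw [Set.indicator_of_mem hx]
          have h3 := hbad x hx
          have h4 := neg_abs_le (θ x)
          have h5 := abs_nonneg (θ x)
          rw [abs_le]
          constructor <;> linarith
        · rw [Set.indicator_of_notMem hx]
          have h3 := hgood x hx
          rw [abs_of_nonneg (by linarith)]
          linarith
      have h6 : |(θ x - (W (T x) - W x)) - t / 4| ≤ |θ x - (W (T x) - W x)| + |t / 4| :=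
        abs_sub _ _
      have h7 : |t / 4| = t / 4 := abs_of_pos (by positivity)
      linarith
    have hind : Integrable ((B R).indicator (fun x => |θ x|)) μ := hθ.abs.indicator (hBm R)
    have hi1 : Integrable (fun x => θ x - (W (T x) - W x)) μ := hθ.sub hψi
    have hi2 : Integrable (fun x => 2 * (B R).indicator (fun x => |θ x|) x) μ := hind.const_mul 2
    have hi3 : Integrable (fun x => (θ x - (W (T x) - W x)) +
        2 * (B R).indicator (fun x => |θ x|) x) μ := hi1.add hi2
    calc ∫ x, |φ x - (W (T x) - W x)| ∂μ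
        ≤ ∫ x, ((θ x - (W (T x) - W x)) + 2 * (B R).indicator (fun x => |θ x|) x + t / 4) ∂μ := by
          apply integral_mono (hφ.sub hψi).abs
          · exact hi3.add (integrable_const _)
          · exact hpt
      _ = (t / 4 - 0) + 2 * (∫ x in B R, |θ x| ∂μ) + t / 4 := by
          rw [integral_add hi3 (integrable_const _),
            integral_add hi1 hi2, integral_sub hθ hψi, hθi, hψ0,
            integral_const_mul, integral_indicator (hBm R)]
          simp
      _ ≤ t := by linarith
      _ ≤ τ := htτ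

end Pool.Agent.Helper57.BI
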